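import Pool.Agent.Run7.h555.XK.Def
import Pool.Agent.N969.P15.Defs
import Pool.Agent.Y473.FK.Alg
import Pool.Agent.Y688.FK.Amb2
import Pool.Agent.Y486.FK.Amb1
import Pool.Agent.Y629.FK.Sq
import Pool.Agent.Y168.FK.Leg

/-!
The criterion in terms of the class group of `ℚ(√-n)`.
-/

set_option autoImplicit false
set_option linter.unusedSectionVars false

open NumberField

namespace Run7.h555.XK

open Pool.Agent.Y755.FK (Rn qn S_AMB)
open Pool.Agent.Y473.FK.Alg (Rep Sqb clb clb_eq count cnt_odd3 mk0_sq)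
open Pool.Agent.N969.P15 (Qc)

lemma a_AMB : S_AMB := Pool.Agent.Y688.FK.t_AMB2 Pool.Agent.Y486.FK.t_AMB1

lemma Rn_eq {n : ℕ} (hn : Cl n) : Rn n = n := by
  unfold Rn
  rw [if_neg]
  have := hn.2
  omega

section

variable {K : Type} [Field K] [NumberField K] {n : ℕ}

lemma qn_eq (hK : QF K n) (hn : Cl n) : qn 1 1 n =
    2 * Nat.card {y : ClassGroup (𝓞 K) // ∃ x : ClassGroup (𝓞 K), x ^ 4 = 1 ∧ x ^ 2 = y} := by
  have h1 := count K Pool.Agent.Y486.FK.t_AMB1 a_AMB Pool.Agent.Y629.FK.t_SQ hK.two n hn.1 hK.sq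
  rw [Rn_eq hn] at h1
  have h2 := cnt_odd3 Pool.Agent.Y168.FK.t_LEG hn.1 (by
    rw [Nat.odd_iff]
    have := hn.2
    omega)
  rw [← h2]
  exact h1

open scoped Classical in
lemma Qc_iff (hn : Cl n) : Qc n ↔ qn 1 1 n = 2 := by
  have hn0 : n ≠ 0 := hn.1.ne_zero
  have hn1 : n ≠ 1 := by
    have := hn.2
    omega
  have key : ∀ b c : ℕ, b * c = n → (Pool.Agent.Y755.FK.Qc 1 1 b c ↔
      (∀ p ∈ c.primeFactors, jacobiSym b p = 1) ∧ ∀ p ∈ b.primeFactors, jacobiSym c p = 1) := by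
    intro b c hbc
    have hb0 : b ≠ 0 := by rintro rfl; rw [zero_mul] at hbc; exact hn0 hbc.symm
    have hc0 : c ≠ 0 := by rintro rfl; rw [mul_zero] at hbc; exact hn0 hbc.symm
    unfold Pool.Agent.Y755.FK.Qc
    simp only [one_mul, Nat.mem_primeFactors]
    constructor
    · rintro ⟨h1, h2⟩
      exact ⟨fun p hp => h1 p hp.1 hp.2.1, fun p hp => h2 p hp.1 hp.2.1⟩
    · rintro ⟨h1, h2⟩
      exact ⟨fun p hp hpc => h1 p ⟨hp, hpc, hc0⟩, fun p hp hpb => h2 p ⟨hp, hpb, hb0⟩⟩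
  have m1 : 1 ∈ n.divisors.filter fun b => Pool.Agent.Y755.FK.Qc 1 1 b (n / b) := by
    rw [Finset.mem_filter]
    refine ⟨Nat.one_mem_divisors.2 hn0, ?_⟩
    rw [Nat.div_one, key 1 n (one_mul n)]
    simp
  have m2 : n ∈ n.divisors.filter fun b => Pool.Agent.Y755.FK.Qc 1 1 b (n / b) := by
    rw [Finset.mem_filter]
    refine ⟨Nat.mem_divisors_self n hn0, ?_⟩
    rw [Nat.div_self (Nat.pos_of_ne_zero hn0), key n 1 (mul_one n)]
    simp
  have hsub : ({1, n} : Finset ℕ) ⊆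
      n.divisors.filter fun b => Pool.Agent.Y755.FK.Qc 1 1 b (n / b) := by
    intro b hb
    rw [Finset.mem_insert, Finset.mem_singleton] at hb
    rcases hb with rfl | rfl
    · exact m1
    · exact m2
  have hc2 : ({1, n} : Finset ℕ).card = 2 := Finset.card_pair hn1.symm
  unfold qn
  constructor
  · intro h
    rw [← hc2]
    congr 1
    refine Finset.Subset.antisymm ?_ hsub
    intro b hb
    rw [Finset.mem_filter] at hb
    have hbc : b * (n / b) = n := Nat.mul_div_cancel' (Nat.dvd_of_mem_divisors hb.1)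
    obtain ⟨h1, h2⟩ := (key b (n / b) hbc).1 hb.2
    rw [Finset.mem_insert, Finset.mem_singleton]
    rcases h b (n / b) hbc h1 h2 with h3 | h3
    · exact Or.inl h3
    · right
      rw [h3, mul_one] at hbc
      exact hbc
  · intro h b c hbc h1 h2
    have he : ({1, n} : Finset ℕ) =
        n.divisors.filter fun b => Pool.Agent.Y755.FK.Qc 1 1 b (n / b) :=
      Finset.eq_of_subset_of_card_le hsub (by rw [h, hc2])
    have hb0 : 0 < b := by
      rcases Nat.eq_zero_or_pos b with h0 | h0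
      · rw [h0, zero_mul] at hbc
        exact absurd hbc.symm hn0
      · exact h0
    have hdc : n / b = c := by
      rw [← hbc, Nat.mul_div_cancel_left c hb0]
    have hb : b ∈ ({1, n} : Finset ℕ) := by
      rw [he, Finset.mem_filter, Nat.mem_divisors, hdc, key b c hbc]
      exact ⟨⟨Dvd.intro c hbc, hn0⟩, h1, h2⟩
    rw [Finset.mem_insert, Finset.mem_singleton] at hb
    rcases hb with hb | hb
    · exact Or.inl hb
    · right
      rw [hb] at hbc
      exact Nat.eq_of_mul_eq_mul_left (Nat.pos_of_ne_zero hn0) (by rw [hbc, mul_one])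

/-- **no element of order four** -/
theorem no_four (hK : QF K n) (hn : Cl n) :
    Qc n ↔ ∀ c : ClassGroup (𝓞 K), c ^ 4 = 1 → c ^ 2 = 1 := by
  rw [Qc_iff hn, qn_eq hK hn]
  constructor
  · intro h c hc
    have h1 : Nat.card {y : ClassGroup (𝓞 K) // ∃ x : ClassGroup (𝓞 K), x ^ 4 = 1 ∧ x ^ 2 = y} = 1 := by
      omega
    obtain ⟨h2, -⟩ := Nat.card_eq_one_iff_unique.1 h1
    have h3 := h2.allEq ⟨c ^ 2, c, hc, rfl⟩ ⟨1, 1, one_pow 4, one_pow 2⟩
    exact congrArg Subtype.val h3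
  · intro h
    have h1 : Nat.card {y : ClassGroup (𝓞 K) // ∃ x : ClassGroup (𝓞 K), x ^ 4 = 1 ∧ x ^ 2 = y} = 1 := by
      rw [Nat.card_eq_one_iff_unique]
      refine ⟨⟨?_⟩, ⟨⟨1, 1, one_pow 4, one_pow 2⟩⟩⟩
      rintro ⟨y, x, hx, rfl⟩ ⟨y', x', hx', rfl⟩
      exact Subtype.ext (show x ^ 2 = x' ^ 2 by rw [h x hx, h x' hx'])
    rw [h1]

open scoped Classical in
/-- **the classes of order two** -/
theorem card_two (hK : QF K n) (hn : Cl n) :
    Nat.card {c : ClassGroup (𝓞 K) // c ^ 2 = 1} = 2 ^ (n.primeFactors.card - 1) := by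
  have hn0 : n ≠ 0 := hn.1.ne_zero
  have hn1 : n ≠ 1 := by
    have := hn.2
    omega
  obtain ⟨hA1, -⟩ := Pool.Agent.Y486.FK.t_AMB1 K hK.two n hn.1 hK.sq
  have hA := a_AMB K hK.two n hn.1 hK.sq
  rw [Rn_eq hn] at hA1 hA
  have hdiv : n.divisors.card = 2 ^ n.primeFactors.card := by
    rw [Nat.card_divisors hn0, ← Finset.prod_const]
    refine Finset.prod_congr rfl fun p hp => ?_
    have h1 := (Nat.squarefree_iff_factorization_le_one hn0).1 hn.1 p
    have h2 : n.factorization p ≠ 0 := by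
      rw [← Finsupp.mem_support_iff, Nat.support_factorization]
      exact hp
    omega
  rw [Nat.card_eq_fintype_card, Fintype.card_subtype]
  have hmaps : ∀ b ∈ n.divisors, clb K b ∈
      (Finset.univ.filter fun c : ClassGroup (𝓞 K) => c ^ 2 = 1) := by
    intro b hb
    rw [Finset.mem_filter]
    obtain ⟨I, hI⟩ := hA1 b (Nat.dvd_of_mem_divisors hb)
    refine ⟨Finset.mem_univ _, ?_⟩
    rw [clb_eq K hI]
    exact mk0_sq K hI
  have h1 := Finset.card_eq_sum_card_fiberwise hmaps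
  have h2 : ∀ c ∈ (Finset.univ.filter fun c : ClassGroup (𝓞 K) => c ^ 2 = 1),
      (n.divisors.filter fun b => clb K b = c).card = 2 := by
    intro c hc
    rw [Finset.mem_filter] at hc
    rw [← hA c hc.2]
    congr 1
    refine Finset.filter_congr fun b hb => ?_
    obtain ⟨I, hI⟩ := hA1 b (Nat.dvd_of_mem_divisors hb)
    constructor
    · intro h
      refine ⟨I, hI, ?_⟩
      rw [← clb_eq K hI]
      exact h
    · rintro ⟨J, hJ, hJc⟩
      rw [clb_eq K hJ]
      exact hJc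
  rw [Finset.sum_congr rfl h2, Finset.sum_const, smul_eq_mul, hdiv] at h1
  have hw : 1 ≤ n.primeFactors.card := by
    rw [Nat.one_le_iff_ne_zero, Ne, Finset.card_eq_zero, Nat.primeFactors_eq_empty]
    omega
  obtain ⟨k, hk⟩ : ∃ k, n.primeFactors.card = k + 1 := ⟨n.primeFactors.card - 1, by omega⟩
  rw [hk, pow_succ] at h1
  rw [hk, Nat.add_sub_cancel]
  exact Nat.eq_of_mul_eq_mul_right (by norm_num : 0 < 2) h1.symm

end

end Run7.h555.XK
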