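import Pool.Agent.Run7.h555.XK.Def
import Pool.Agent.Run7.h741.MF.Lat
import Pool.Agent.Y682.XF.Stm

/-!
# Project XK, analytic side: statements of the parts

`K = ℚ(√-n)`, `n` squarefree, `n = 23, 47` modulo `60`, `E = X_0(15)`. In `K` two is unramified, three
splits, five is inert, the prime divisors of `n` are ramified.
-/

set_option autoImplicit false
set_option linter.unusedVariables false

open NumberField NumberField.InfinitePlace IsDedekindDomain WeierstrassCurve MeasureTheory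

namespace Run7.h555.XK

open Pool.Agent.W189.NF (aV eV aLoc eLoc)
open Pool.Agent.H921R2.TatePole (below deg nm)
open Pool.Agent.Run7.h741.MF (II)
open Pool.Agent.Y682.XF (kr)
open Run7.h428.NF (LF eul)

/-- **PLC**: the places of `K`, and the primes unramified in `K` are uniformizers. -/
def S_PLC : Prop := ∀ (K : Type) [Field K] [NumberField K] (n : ℕ), QF K n → Squarefree n →
  n % 4 = 3 → ∀ p : Nat.Primes,
  (kr (-(n : ℤ)) p = 1 → ¬ (p : ℕ) ∣ n → (∀ v : HeightOneSpectrum (𝓞 K), below v = p → deg v = 1) ∧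
    Nat.card {v : HeightOneSpectrum (𝓞 K) // below v = p} = 2) ∧
  (kr (-(n : ℤ)) p = -1 → ¬ (p : ℕ) ∣ n →
    (∀ v : HeightOneSpectrum (𝓞 K), below v = p → deg v = 2) ∧
    Nat.card {v : HeightOneSpectrum (𝓞 K) // below v = p} = 1) ∧
  ((p : ℕ) ∣ n → (∀ v : HeightOneSpectrum (𝓞 K), below v = p → deg v = 1) ∧
    Nat.card {v : HeightOneSpectrum (𝓞 K) // below v = p} = 1) ∧
  (¬ (p : ℕ) ∣ n → ∀ v : HeightOneSpectrum (𝓞 K), below v = p →
    v.valuation K ((p : ℕ) : K) = WithZero.exp (-1 : ℤ))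

/-- **SPL** (split multiplicative reduction). As `Run7.h428.NF.S_MUL` (proved in
`Run7/h483/NF/MUL`), with `-c₄ c₆` a square in the residue field: the local polynomial of Mathlib is
`1 - T`. -/
def S_SPL : Prop := ∀ (R : Type) [CommRing R] [IsDomain R] [IsDiscreteValuationRing R] (L : Type)
  [Field L] [Algebra R L] [IsFractionRing R L] (W₀ : WeierstrassCurve R),
  (2 : IsLocalRing.ResidueField R) ≠ 0 → ¬ IsUnit W₀.Δ → W₀.Δ ≠ 0 → IsUnit W₀.c₄ →
  IsSquare (IsLocalRing.residue R (-(W₀.c₄ * W₀.c₆))) →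
  aLoc R (W₀.map (algebraMap R L)) = 1 ∧ eLoc R (W₀.map (algebraMap R L)) = 0

/-- **M15K**: the places above `3` and `5`. `c₄(E) = 481`, `c₆(E) = 4879`, `Δ(E) = 15 ^ 4`; modulo `3`
`-c₄ c₆ = 2` is not a square in the field with three elements, modulo `5` it is `1`. As
`Run7/h483/NF/M15`, for `D = 1`. -/
def S_M15K : Prop := ∀ (K : Type) [Field K] [NumberField K] (v : HeightOneSpectrum (𝓞 K)),
  ((below v : ℕ) = 3 → deg v = 1 → aV (base E K) v = -1 ∧ eV (base E K) v = 0) ∧
  ((below v : ℕ) = 5 → aV (base E K) v = 1 ∧ eV (base E K) v = 0)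

/-- **LF** (helper555): the Euler factors over `K`. -/
def S_LF : Prop := S_PLC → S_M15K → ∀ (K : Type) [Field K] [NumberField K] (n : ℕ), QF K n →
  Cl n → ∀ (s : ℂ) (q : Nat.Primes),
  ∏ᶠ v : {v : HeightOneSpectrum (𝓞 K) // below v = q}, LF (base E K) s v.1 =
    eul 1 s q * eul (-(n : ℤ)) s q

/-- **L1** (helper555): the L-function of `E` over `ℚ`. -/
def S_L1 : Prop := ∃ G : ℂ → ℂ, Differentiable ℂ G ∧
  (∀ z : ℂ, 3 / 2 < z.re → HasProd (fun p : Nat.Primes => eul 1 z p) (G z)) ∧ G 1 = II 0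

/-- **W0**: the value `L(E, 1)` is a quarter of the real period `Op`, the least positive real element of the
lattice. By `Pool.Agent.Run7.h741.MF.integrals` `II 0` and `2 II 0` are not in the lattice and `4 II 0` is;
`II 0` is real and positive (the eta function is positive on the imaginary axis), so
`II 0 = a Op / 4` with `a > 0` odd. By `fricke` (`Run7/h741/MF/Inst`, the sign follows from the
positivity) `II 0 = 4 π ∫_{1/√15}^∞ f(i t) dt`, and `0 < f(i t) < e ^ (- 2 π t)`; so
`II 0 < 2 e ^ (-2 π / √15) < 0.4`. And `Op > 1 / 2` (for instance `Op = 2 ∫_{X > 4} dX / √(4 X³ - 7 X² - 36 X) >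
2 ∫_{X > 4} dX / √(4 X³) = 1`), so `a < 3.2 ...`: `a = 1` if `Op > 0.54`. -/
def S_W0 : Prop := ∀ (L : PeriodPair) (Op Om : ℝ), 0 < Op → 0 < Om → L.g₂ = 481 / 12 →
  L.g₃ = 4879 / 216 →
  (∀ w : ℂ, w ∈ L.lattice ↔ ∃ a b : ℤ, w = a * Op + b * Om * Complex.I) →
  II 0 = ((Op / 4 : ℝ) : ℂ)

/-- **CPER**: the complex period is twice the area of the rectangle with the sides `Op`, `Om`. Port of
`Pool/Agent/Y474/PERC` (the curve 11a1, a rhombic lattice) to the rectangular lattice. -/
def S_CPER : Prop := ∀ (L : PeriodPair) (Op Om : ℝ), 0 < Op → 0 < Om → L.g₂ = 481 / 12 →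
  L.g₃ = 4879 / 216 →
  (∀ w : ℂ, w ∈ L.lattice ↔ ∃ a b : ℤ, w = a * Op + b * Om * Complex.I) →
  complexPeriod E = 2 * Op * Om

/-- **MIN**: the equation is minimal at all places of `K` (the discriminant is `15 ^ 4`, and three and
five are unramified in `K`). -/
def S_MINK : Prop := S_PLC → ∀ (K : Type) [Field K] [NumberField K] (n : ℕ), QF K n → Cl n →
  ∀ v : HeightOneSpectrum (𝓞 K), MinimalAt (base E K) v

/-- **TAM**: the Tamagawa numbers: two at the two places above three (nonsplit, `v Δ = 4`), four at the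
place above five (split, `v Δ = 4`), one elsewhere. The points with nonsingular reduction over a valued
field: `Run7/h555/P15/{Tg,Tam}`. -/
def S_TAMK : Prop := S_PLC → ∀ (K : Type) [Field K] [NumberField K] (n : ℕ), QF K n → Cl n →
  Tam (base E K) = 16

/-- **DISC**: `Disc K = -n` (`Pool.Agent.Y797.FK`, `t_DISC`), one complex place. -/
def S_DSC : Prop := ∀ (K : Type) [Field K] [NumberField K] (n : ℕ), QF K n → Cl n →
  discr K = -(n : ℤ) ∧ nrRealPlaces K = 0 ∧ nrComplexPlaces K = 1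

end Run7.h555.XK
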