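import Pool.Agent.Run7.h555.XK.Val
import Pool.Agent.Run7.h555.XK.Clg
import Pool.Agent.Run7.h289.XK.CPER
import Pool.Agent.N916.GB.Fin
import Pool.Agent.Run7.h238.G15.Dens

/-!
The theorem for the imaginary quadratic fields `K` with discriminant `13` or `37` modulo `60`.
-/

set_option autoImplicit false
set_option linter.unusedSectionVars false

open NumberField NumberField.InfinitePlace IsDedekindDomain WeierstrassCurve MeasureTheory Filter
  Topology

namespace Run7.h555.XK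

open Pool.Agent.TH841.NF.D (Sha)
open Pool.Agent.N969.P15 (Qc)

/-- the class of the fields -/
def ClK (K : Type) [Field K] [NumberField K] : Prop :=
  Module.finrank ℚ K = 2 ∧ discr K < 0 ∧ (discr K % 60 = 13 ∨ discr K % 60 = 37)

/-- the fields and the numbers -/
theorem ClK.ex {K : Type} [Field K] [NumberField K] (h : ClK K) :
    ∃ n : ℕ, QF K n ∧ Cl n ∧ discr K = -(n : ℤ) := by
  obtain ⟨h2, hneg, h60⟩ := h
  obtain ⟨hD1, hD2, -⟩ := Pool.Agent.Y797.FK.t_DISC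
  obtain ⟨n, hn, hs⟩ := hD2 K h2 hneg
  have hd := hD1 K h2 n hn hs
  by_cases h4 : n % 4 = 3
  · rw [if_pos h4] at hd
    refine ⟨n, ⟨h2, hs⟩, ⟨hn, ?_⟩, hd⟩
    rw [hd] at h60
    omega
  · rw [if_neg h4] at hd
    rw [hd] at h60
    omega

/-- the existence of the fields -/
theorem Cl.exK {n : ℕ} (hn : Cl n) : ∃ (K : Type) (_ : Field K) (_ : NumberField K),
    ClK K ∧ QF K n ∧ discr K = -(n : ℤ) := by
  obtain ⟨hD1, -, hD3⟩ := Pool.Agent.Y797.FK.t_DISC
  obtain ⟨K, i1, i2, h2, hs⟩ := hD3 n hn.1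
  have hd := hD1 K h2 n hn.1 hs
  have h60 := hn.2
  have hn0 : 0 < n := Nat.pos_of_ne_zero hn.1.ne_zero
  rw [if_pos (by omega)] at hd
  refine ⟨K, i1, i2, ⟨h2, ?_, ?_⟩, ⟨h2, hs⟩, hd⟩
  · rw [hd]
    omega
  · rw [hd]
    omega

/-- uniqueness of the entire continuation -/
theorem unique_ext {F G : ℂ → ℂ} (hF : Differentiable ℂ F) (hG : Differentiable ℂ G)
    (h : ∀ s : ℂ, 2 < s.re → F s = G s) : F 1 = G 1 := by
  have h1 : AnalyticOnNhd ℂ F Set.univ := fun x _ =>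
    hF.analyticAt x
  have h2 : AnalyticOnNhd ℂ G Set.univ := fun x _ =>
    hG.analyticAt x
  have hopen : IsOpen {s : ℂ | 2 < s.re} := isOpen_lt continuous_const Complex.continuous_re
  have h3 : F =ᶠ[𝓝 (3 : ℂ)] G := by
    filter_upwards [hopen.mem_nhds (show (3 : ℂ) ∈ {s : ℂ | 2 < s.re} by
      show (2 : ℝ) < (3 : ℂ).re
      norm_num)] with s hs
    exact h s hs
  exact congrFun (h1.eq_of_eventuallyEq h2 h3) 1

/-- the curve over the field -/
theorem base_eq' (K : Type) [Field K] : base E K = (⟨1, 1, 1, -10, -10⟩ : WeierstrassCurve K) := by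
  unfold base E WeierstrassCurve.map
  simp

/-- The algebraic side -/
def S_ALGK : Prop := ∀ (K : Type) [Field K] [NumberField K] (n : ℕ), QF K n → Cl n → Qc n →
  Nat.card (base E K).toAffine.Point = 8 ∧
  (∀ (k : ℕ) (x : Sha (base E K)), 2 ^ k • x = 0 → 2 • x = 0) ∧
  Nat.card {x : Sha (base E K) // ∃ k : ℕ, 2 ^ k • x = 0} = 4 ^ (n.primeFactors.card - 1)

/-- everything for one field -/
structure Pk (K : Type) [Field K] [NumberField K] (n : ℕ) : Prop where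
  min : ∀ v : HeightOneSpectrum (𝓞 K), MinimalAt (base E K) v
  tam : Tam (base E K) = 16
  om : 0 < Omega K E
  val : ∃ F : ℂ → ℂ, Differentiable ℂ F ∧ (∀ s : ℂ, 2 < s.re → F s = (base E K).LSeries s) ∧
    ∃ y : ℤ, (Odd y ↔ Qc n) ∧ F 1 * (((√|(discr K : ℝ)| : ℝ) : ℂ) * 8 ^ 2) =
      (y : ℂ) ^ 2 * 4 ^ (n.primeFactors.card - 1) *
        (((Omega K E : ℝ) : ℂ) * (Tam (base E K) : ℂ))
  alg : Qc n → Nat.card (base E K).toAffine.Point = 8 ∧
    (∀ (k : ℕ) (x : Sha (base E K)), 2 ^ k • x = 0 → 2 • x = 0) ∧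
    Nat.card (Sha2 (base E K)) = 4 ^ (n.primeFactors.card - 1)

theorem pack (hP : S_PLC) (hM : S_M15K) (hW : S_W0) (hMi : S_MINK) (hT : S_TAMK) (hA : S_ALGK)
    {K : Type} [Field K] [NumberField K] {n : ℕ} (hK : QF K n) (hn : Cl n) : Pk K n := by
  obtain ⟨d1, d2, d3⟩ := t_DSC K n hK hn
  have hOm : Omega K E = complexPeriod E := by
    unfold Omega
    rw [d2, d3, pow_zero, pow_one, one_mul]
  have hCP := Pool.Agent.Run7.h289.XK.t_CPER
  have hTam := hT hP K n hK hn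
  refine ⟨hMi hP K n hK hn, hTam, ?_, ?_, fun hq => ?_⟩
  · obtain ⟨L, Op, Om, hOp, hOm', g2, g3, hL⟩ := Run7.h209.P15.m_lat
    rw [hOm, hCP L Op Om hOp hOm' g2 g3 hL]
    positivity
  · obtain ⟨F, hF, hs, y, hy, hv⟩ := val hP hM hW hCP hK hn
    refine ⟨F, hF, hs, y, hy, ?_⟩
    have e1 : |(discr K : ℝ)| = n := by
      rw [d1]
      push_cast
      rw [abs_neg, Nat.abs_cast]
    rw [e1, hOm, hTam]
    push_cast
    rw [show (8 : ℂ) ^ 2 = 64 by norm_num]
    exact hv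
  · obtain ⟨a1, a2, a3⟩ := hA K n hK hn hq
    exact ⟨a1, a2, a3⟩

end Run7.h555.XK
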