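import Pool.Agent.Run7.h555.XK.Stm
import Pool.Agent.Y797.FK.Disc

/-!
The discriminant and the places at infinity of `ℚ(√-n)`.
-/

set_option autoImplicit false

open NumberField NumberField.InfinitePlace

namespace Run7.h555.XK

/-- **DISC** -/
theorem t_DSC : S_DSC := by
  intro K _ _ n hK hn
  obtain ⟨r, hr⟩ := hK.sq
  have hd := Pool.Agent.Y797.FK.t_DISC.1 K hK.two n hn.1 hK.sq
  rw [if_pos (by have := hn.2; omega)] at hd
  have hreal : nrRealPlaces K = 0 := by
    by_contra hne
    obtain ⟨w, hw⟩ : ∃ w : InfinitePlace K, w.IsReal := by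
      by_contra hcon
      push Not at hcon
      apply hne
      rw [nrRealPlaces_eq_zero_iff]
      exact ⟨fun w => not_isReal_iff_isComplex.1 (hcon w)⟩
    have h1 := congrArg (fun x => (w.embedding_of_isReal hw) x) hr
    simp only [map_pow, map_neg, map_natCast] at h1
    have h2 : (0 : ℝ) < n := by exact_mod_cast Nat.pos_of_ne_zero hn.1.ne_zero
    nlinarith [sq_nonneg (w.embedding_of_isReal hw r)]
  have h2 := card_add_two_mul_card_eq_rank K
  rw [hreal, hK.two] at h2
  exact ⟨hd, hreal, by omega⟩

end Run7.h555.XK
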