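import Pool.Agent.Run7.h555.XK.Stm
import Pool.Agent.Run7.h555.P15.Ltw

/-!
The `L`-function of `X_0(15)` over `ℚ`.
-/

set_option autoImplicit false
set_option linter.unusedSectionVars false

open Complex Filter Topology ZMod

namespace Run7.h555.XK

open Pool.Agent.W97.MT (ap)
open Pool.Agent.Run7.h741.MF (E15 II)
open Run7.h428.NF (eul)

lemma wt_one : Run7.h555.P15.WT 1 = E15 := by
  unfold Run7.h555.P15.WT E15
  norm_num

/-- **L1** -/
theorem t_L1 : S_L1 := by
  have hco : Nat.Coprime 1 15 := by norm_num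
  obtain ⟨g, hg, hprod, hval⟩ := Run7.h555.P15.facts.exists_L Pool.Agent.Run7.h741.MF.bd15 hco
    (1 : DirichletCharacter ℂ 1) DirichletCharacter.isPrimitive_one_level_one
  refine ⟨g, hg, fun z hz => ?_, ?_⟩
  · have h1 := hprod z hz
    have e : (fun p : Nat.Primes => eul 1 z p) = fun p : Nat.Primes =>
        (1 - (ap E15 p : ℂ) * (1 : DirichletCharacter ℂ 1) (p : ZMod 1) * (p : ℂ) ^ (-z) +
          (if (p : ℕ) ∣ 15 then 0 else (p : ℂ)) * ((1 : DirichletCharacter ℂ 1) (p : ZMod 1)) ^ 2 *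
            (p : ℂ) ^ (-2 * z))⁻¹ := by
      funext p
      have hp := p.2
      have hp0 : ((p : ℕ) : ℂ) ≠ 0 := by exact_mod_cast hp.ne_zero
      have h1 : (1 : DirichletCharacter ℂ 1) ((p : ℕ) : ZMod 1) = 1 := by
        have : ((p : ℕ) : ZMod 1) = 1 := Subsingleton.elim _ _
        rw [this, map_one]
      unfold eul
      rw [wt_one, h1]
      have e4 : ((p : ℕ) : ℂ) ^ (1 - 2 * z) = (p : ℂ) * (p : ℂ) ^ (-2 * z) := by
        rw [sub_eq_add_neg, Complex.cpow_add _ _ hp0, Complex.cpow_one, neg_mul]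
      have hd : (((p : ℕ) : ℤ) ∣ 15 * 1) ↔ (p : ℕ) ∣ 15 := by
        rw [mul_one]
        exact_mod_cast Int.natCast_dvd_natCast
      by_cases h : (p : ℕ) ∣ 15
      · rw [if_pos (hd.2 h), if_pos h]
        ring
      · rw [if_neg (fun h' => h (hd.1 h')), if_neg h, e4]
        ring
    rw [e]
    exact h1
  · have e1 : gaussSum (1 : DirichletCharacter ℂ 1)⁻¹ (stdAddChar (N := 1)) = 1 := by
      unfold gaussSum
      rw [Fintype.sum_eq_single (0 : ZMod 1) (fun x hx => absurd (Subsingleton.elim _ _) hx)]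
      have h0 : (0 : ZMod 1) = 1 := Subsingleton.elim _ _
      rw [AddChar.map_zero_eq_one, mul_one, h0, map_one]
    have e2 : ∑ u : (ZMod 1)ˣ, (1 : DirichletCharacter ℂ 1)⁻¹ (u : ZMod 1) *
        II (((u : ZMod 1).val : ℚ) / ((1 : ℕ) : ℚ)) = II 0 := by
      rw [Fintype.sum_eq_single (1 : (ZMod 1)ˣ) (fun x hx => absurd (Subsingleton.elim _ _) hx)]
      have h0 : ((1 : (ZMod 1)ˣ) : ZMod 1).val = 0 := by decide
      rw [h0, Units.val_one, map_one, one_mul, Nat.cast_zero, zero_div]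
    rw [e1, e2, one_mul] at hval
    exact hval

end Run7.h555.XK
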