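import Pool.Agent.Run7.h555.XK.Stm
import Pool.Agent.Run7.h555.XK.L1
import Pool.Agent.Run7.h555.XK.Dsc
import Pool.Agent.Run7.h428.NF.PP
import Pool.Agent.Run7.h803.NF.GOOD
import Pool.Agent.Run7.h803.NF.CNT
import Pool.Agent.Run7.h209.P15.M23

/-!
The Euler factors of `X_0(15)` over `ℚ(√-n)`.
-/

set_option autoImplicit false
set_option linter.unusedSectionVars false

open NumberField IsDedekindDomain WeierstrassCurve

namespace Run7.h555.XK

open Pool.Agent.W97.MT (ap)
open Pool.Agent.W189.NF (aV eV)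
open Pool.Agent.H921R2.TatePole (below deg nm nm_eq)
open Pool.Agent.H82R3.EK (luc)
open Pool.Agent.Run7.h741.MF (E15)
open Pool.Agent.Y682.XF (kr)
open Run7.h428.NF (LF eul EF kr_zero)
open Run7.h555.P15 (ap_twist)

variable {K : Type} [Field K] [NumberField K]

lemma base_EF : base E K = EF K 1 := by
  unfold base Run7.h428.NF.EF
  rw [E_eq]

/-- constant products -/
lemma fprod_const {q : Nat.Primes} {W : WeierstrassCurve K} {s c : ℂ} {k : ℕ}
    (h : ∀ v : HeightOneSpectrum (𝓞 K), below v = q → LF W s v = c)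
    (hk : Nat.card {v : HeightOneSpectrum (𝓞 K) // below v = q} = k) :
    ∏ᶠ v : {v : HeightOneSpectrum (𝓞 K) // below v = q}, LF W s v.1 = c ^ k := by
  classical
  rw [finprod_eq_prod_of_fintype, Finset.prod_congr rfl fun v _ => h v.1 v.2, Finset.prod_const,
    Finset.card_univ, ← Nat.card_eq_fintype_card, hk]

lemma E15_three : ap E15 3 = -1 := Run7.h555.P15.ap_three
lemma E15_five : ap E15 5 = 1 := Run7.h555.P15.ap_five

lemma Cl.mod4 {n : ℕ} (h : Cl n) : n % 4 = 3 := by have := h.2; omega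

lemma kr_three {n : ℕ} (h : Cl n) : kr (-(n : ℤ)) 3 = 1 := by
  unfold kr
  rw [if_neg (by norm_num), jacobiSym.mod_left]
  have : (-(n : ℤ)) % ((3 : ℕ) : ℤ) = 1 := by
    have := h.2
    push_cast
    omega
  rw [this]
  exact jacobiSym.one_left 3

lemma kr_five {n : ℕ} (h : Cl n) : kr (-(n : ℤ)) 5 = -1 := by
  unfold kr
  rw [if_neg (by norm_num), jacobiSym.mod_left]
  have : (-(n : ℤ)) % ((5 : ℕ) : ℤ) = 2 ∨ (-(n : ℤ)) % ((5 : ℕ) : ℤ) = 3 := by
    have := h.2
    push_cast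
    omega
  rcases this with h | h <;> rw [h] <;> norm_num

lemma Cl.not_three {n : ℕ} (h : Cl n) : ¬ 3 ∣ n := by have := h.2; omega
lemma Cl.not_five {n : ℕ} (h : Cl n) : ¬ 5 ∣ n := by have := h.2; omega

/-- the symbol of a prime that does not divide `n` -/
lemma kr_unit {n : ℕ} {q : ℕ} (hq : q.Prime) (hqn : ¬ q ∣ n) :
    kr (-(n : ℤ)) q = 1 ∨ kr (-(n : ℤ)) q = -1 := by
  unfold kr
  by_cases h2 : q = 2
  · rw [if_pos h2]
    split_ifs
    · exact Or.inl rfl
    · exact Or.inr rfl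
  · rw [if_neg h2]
    refine jacobiSym.eq_one_or_neg_one ?_
    rw [← Int.isCoprime_iff_gcd_eq_one, IsCoprime.neg_left_iff]
    exact Nat.isCoprime_iff_coprime.2 ((Nat.Prime.coprime_iff_not_dvd hq).2 hqn).symm

/-- the places of good reduction -/
lemma good_LF (v : HeightOneSpectrum (𝓞 K)) (s : ℂ) (h15 : ¬ (below v : ℕ) ∣ 15)
    (hd : deg v = 1 ∨ deg v = 2) : LF (base E K) s v =
      (1 - ((luc (ap E15 (below v)) (below v : ℕ) (deg v) : ℤ) : ℂ) *
        (((below v : ℕ) : ℂ) ^ (-s)) ^ (deg v) + ((below v : ℕ) : ℂ) ^ (deg v) *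
          ((((below v : ℕ) : ℂ) ^ (-s)) ^ (deg v)) ^ 2)⁻¹ := by
  have hC : (1 : VariableChange K) • base E K = EF K 1 := by
    rw [one_smul, base_EF]
  obtain ⟨a1, a2⟩ := Run7.h803.NF.t_GOOD Run7.h803.NF.t_CNT K v 1 (base E K) 1 (by norm_num)
    (by
      rw [mul_one]
      intro h
      exact h15 (by exact_mod_cast h)) (by omega) hC
  unfold LF
  rw [a1, a2, (nm_eq v).1, Pool.Agent.W164.RC.pow_cpow', wt_one]
  push_cast
  rfl

/-- the Euler factors over `ℚ` -/
lemma eul_one {q : ℕ} (hq : q.Prime) (h15 : ¬ q ∣ 15) (s : ℂ) : eul 1 s q =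
    (1 - (ap E15 q : ℂ) * (q : ℂ) ^ (-s) + (q : ℂ) * ((q : ℂ) ^ (-s)) ^ 2)⁻¹ := by
  have hp0 : ((q : ℕ) : ℂ) ≠ 0 := by exact_mod_cast hq.ne_zero
  unfold eul
  rw [wt_one, if_neg, sub_eq_add_neg (1 : ℂ) (2 * s), Complex.cpow_add _ _ hp0, Complex.cpow_one]
  · have e : (q : ℂ) ^ (-(2 * s)) = ((q : ℂ) ^ (-s)) ^ 2 := by
      rw [← Complex.cpow_nat_mul]
      congr 1
      push_cast
      ring
    rw [e]
  · rw [mul_one]
    intro h
    exact h15 (by exact_mod_cast h)

lemma eul_neg {n q : ℕ} (h : Cl n) (hq : q.Prime) (h15 : ¬ q ∣ 15) (hqn : ¬ q ∣ n) (s : ℂ) :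
    eul (-(n : ℤ)) s q = (1 - (kr (-(n : ℤ)) q : ℂ) * (ap E15 q : ℂ) * (q : ℂ) ^ (-s) +
      (q : ℂ) * ((q : ℂ) ^ (-s)) ^ 2)⁻¹ := by
  have hp0 : ((q : ℕ) : ℂ) ≠ 0 := by exact_mod_cast hq.ne_zero
  have h4 := h.mod4
  unfold eul
  rw [ap_twist (by omega) hq, if_neg, sub_eq_add_neg (1 : ℂ) (2 * s), Complex.cpow_add _ _ hp0,
    Complex.cpow_one]
  · have e : (q : ℂ) ^ (-(2 * s)) = ((q : ℂ) ^ (-s)) ^ 2 := by
      rw [← Complex.cpow_nat_mul]
      congr 1
      push_cast
      ring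
    rw [e]
    push_cast
    ring
  · intro hd
    have hd' : (q : ℤ) ∣ ((15 * n : ℕ) : ℤ) := by
      push_cast
      rw [← dvd_neg]
      have e : -(15 * (n : ℤ)) = 15 * -(n : ℤ) := by ring
      rw [e]
      exact hd
    rcases (hq.dvd_mul).1 (by exact_mod_cast hd' : q ∣ 15 * n) with h1 | h1
    · exact h15 h1
    · exact hqn h1

/-- **LF** -/
theorem t_LF : S_LF := by
  intro hP hM K _ _ n hK hn s q
  have hq := q.2
  obtain ⟨p1, p2, p3, -⟩ := hP K n hK hn.1 hn.mod4 q
  have h4 := hn.mod4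
  by_cases hq15 : (q : ℕ) ∣ 15
  · have hq35 : (q : ℕ) = 3 ∨ (q : ℕ) = 5 := by
      have h1 : (q : ℕ) ∣ 3 * 5 := hq15
      rcases (hq.dvd_mul).1 h1 with h2 | h2
      · exact Or.inl ((Nat.prime_dvd_prime_iff_eq hq Nat.prime_three).1 h2)
      · exact Or.inr ((Nat.prime_dvd_prime_iff_eq hq Nat.prime_five).1 h2)
    have e2 : eul (-(n : ℤ)) s q = (1 + ((q : ℕ) : ℂ) ^ (-s))⁻¹ := by
      unfold eul
      rw [Run7.h428.NF.ap15 Run7.h209.P15.m_min hn.2 hq35, if_pos]
      · push_cast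
        congr 1
        ring
      · rcases hq35 with h3 | h3 <;> rw [h3]
        · exact Dvd.dvd.mul_right (by norm_num) _
        · exact Dvd.dvd.mul_right (by norm_num) _
    rcases hq35 with h3 | h3
    · obtain ⟨d1, d2⟩ := p1 (by rw [h3]; exact kr_three hn) (by rw [h3]; exact hn.not_three)
      have hL : ∀ v : HeightOneSpectrum (𝓞 K), below v = q →
          LF (base E K) s v = (1 + ((q : ℕ) : ℂ) ^ (-s))⁻¹ := by
        intro v hv
        have hb : (below v : ℕ) = q := by rw [hv]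
        obtain ⟨a1, a2⟩ := (hM K v).1 (by rw [hb, h3]) (d1 v hv)
        unfold LF
        rw [a1, a2, (nm_eq v).1, d1 v hv, pow_one, hb]
        push_cast
        congr 1
        ring
      rw [fprod_const hL d2, e2]
      have e1 : eul 1 s q = (1 + ((q : ℕ) : ℂ) ^ (-s))⁻¹ := by
        unfold eul
        rw [wt_one, h3, E15_three, if_pos (by norm_num)]
        push_cast
        congr 1
        ring
      rw [e1]
      ring
    · obtain ⟨d1, d2⟩ := p2 (by rw [h3]; exact kr_five hn) (by rw [h3]; exact hn.not_five)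
      have hL : ∀ v : HeightOneSpectrum (𝓞 K), below v = q →
          LF (base E K) s v = (1 - (((q : ℕ) : ℂ) ^ (-s)) ^ 2)⁻¹ := by
        intro v hv
        have hb : (below v : ℕ) = q := by rw [hv]
        obtain ⟨a1, a2⟩ := (hM K v).2 (by rw [hb, h3])
        unfold LF
        rw [a1, a2, (nm_eq v).1, d1 v hv, Pool.Agent.W164.RC.pow_cpow', hb]
        push_cast
        congr 1
        ring
      rw [fprod_const hL d2, e2]
      have e1 : eul 1 s q = (1 - ((q : ℕ) : ℂ) ^ (-s))⁻¹ := by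
        unfold eul
        rw [wt_one, h3, E15_five, if_pos (by norm_num)]
        push_cast
        congr 1
        ring
      rw [e1, pow_one, ← mul_inv]
      congr 1
      ring
  · rw [eul_one hq hq15]
    set x := ((q : ℕ) : ℂ) ^ (-s) with hx
    by_cases hqn : (q : ℕ) ∣ n
    · obtain ⟨d1, d2⟩ := p3 hqn
      have hL : ∀ v : HeightOneSpectrum (𝓞 K), below v = q →
          LF (base E K) s v = (1 - (ap E15 q : ℂ) * x + (q : ℂ) * x ^ 2)⁻¹ := by
        intro v hv
        have hb : (below v : ℕ) = q := by rw [hv]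
        rw [good_LF v s (by rw [hb]; exact hq15) (Or.inl (d1 v hv)), d1 v hv, hb]
        have e : luc (ap E15 (q : ℕ)) (q : ℕ) 1 = ap E15 q := rfl
        rw [e, ← hx]
        congr 1
        ring
      have e2 : eul (-(n : ℤ)) s q = 1 := by
        have hd : ((q : ℕ) : ℤ) ∣ -(n : ℤ) := by
          rw [dvd_neg]
          exact_mod_cast hqn
        unfold eul
        rw [ap_twist (by omega) hq, kr_zero (by omega) hq hd, zero_mul, if_pos (hd.mul_left 15)]
        simp
      rw [fprod_const hL d2, e2, pow_one, mul_one]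
    · rw [eul_neg hn hq hq15 hqn, ← hx]
      rcases kr_unit hq hqn with hk | hk
      · obtain ⟨d1, d2⟩ := p1 hk hqn
        have hL : ∀ v : HeightOneSpectrum (𝓞 K), below v = q →
            LF (base E K) s v = (1 - (ap E15 q : ℂ) * x + (q : ℂ) * x ^ 2)⁻¹ := by
          intro v hv
          have hb : (below v : ℕ) = q := by rw [hv]
          rw [good_LF v s (by rw [hb]; exact hq15) (Or.inl (d1 v hv)), d1 v hv, hb]
          have e : luc (ap E15 (q : ℕ)) (q : ℕ) 1 = ap E15 q := rfl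
          rw [e, ← hx]
          congr 1
          ring
        rw [fprod_const hL d2, hk, Int.cast_one, one_mul, pow_two]
      · obtain ⟨d1, d2⟩ := p2 hk hqn
        have hL : ∀ v : HeightOneSpectrum (𝓞 K), below v = q →
            LF (base E K) s v = ((1 - (ap E15 q : ℂ) * x + (q : ℂ) * x ^ 2) *
              (1 + (ap E15 q : ℂ) * x + (q : ℂ) * x ^ 2))⁻¹ := by
          intro v hv
          have hb : (below v : ℕ) = q := by rw [hv]
          rw [good_LF v s (by rw [hb]; exact hq15) (Or.inr (d1 v hv)), d1 v hv, hb]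
          have e : luc (ap E15 (q : ℕ)) (q : ℕ) 2 =
            ap E15 (q : ℕ) * ap E15 (q : ℕ) - ((q : ℕ) : ℤ) * 2 := rfl
          rw [e, ← hx]
          push_cast
          congr 1
          ring
        rw [fprod_const hL d2, hk, pow_one, mul_inv]
        push_cast
        congr 2
        ring

end Run7.h555.XK
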