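import Pool.Agent.Run7.h555.XK.Lf
import Pool.Agent.Run7.h555.P15.Tam
import Pool.Agent.Run7.h555.P15.Gs
import Pool.Agent.Run7.h555.P15.Th
import Pool.Agent.W189.NF.LSer

/-!
The value at `s = 1` of the `L`-function of `X_0(15)` over `ℚ(√-n)`.
-/

set_option autoImplicit false
set_option linter.unusedSectionVars false

open NumberField IsDedekindDomain WeierstrassCurve

namespace Run7.h555.XK

open Pool.Agent.H921R2.TatePole (below deg nm nm_eq)
open Pool.Agent.Run7.h741.MF (E15 II)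
open Run7.h428.NF (LF eul)
open Pool.Agent.N969.P15 (Qc)

lemma eul_P15 (n : ℕ) (s : ℂ) (p : ℕ) : eul (-(n : ℤ)) s p = Run7.h555.P15.eul n s p := by
  unfold eul Run7.h555.P15.eul
  have h : ((p : ℤ) ∣ 15 * -(n : ℤ)) ↔ p ∣ 15 * n := by
    rw [mul_neg, dvd_neg]
    exact_mod_cast Int.natCast_dvd_natCast
  rw [if_congr h rfl rfl]

/-- **the L-function over the field** -/
theorem lseries (hP : S_PLC) (hM : S_M15K) {K : Type} [Field K] [NumberField K] {n : ℕ}
    (hK : QF K n) (hn : Cl n) {G F : ℂ → ℂ}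
    (hG : ∀ z : ℂ, 3 / 2 < z.re → HasProd (fun p : Nat.Primes => eul 1 z p) (G z))
    (hF : ∀ z : ℂ, 3 / 2 < z.re → HasProd (fun p : Nat.Primes => eul (-(n : ℤ)) z p) (F z))
    {s : ℂ} (hs : 2 < s.re) : G s * F s = (base E K).LSeries s := by
  classical
  have hs' : 3 / 2 < s.re := by linarith
  have h1 := (hG s hs').mul (hF s hs')
  have e1 : (fun q : Nat.Primes => eul 1 s q * eul (-(n : ℤ)) s q) = fun q : Nat.Primes =>
      ∏ v : {v : HeightOneSpectrum (𝓞 K) // below v = q}, LF (base E K) s v.1 := by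
    funext q
    rw [← t_LF hP hM K n hK hn s q, finprod_eq_prod_of_fintype]
  rw [e1] at h1
  have h2 := (Pool.Agent.W189.NF.LSeries_hasProd (base E K) hs).2
  have h3 := (Equiv.sigmaFiberEquiv (below (K := K))).hasProd_iff.2 h2
  have h4 := h3.sigma (g := fun q : Nat.Primes =>
    ∏ v : {v : HeightOneSpectrum (𝓞 K) // below v = q}, LF (base E K) s v.1)
    (fun q => hasProd_fintype _)
  exact h1.unique h4

/-- **VAL** -/
theorem val (hP : S_PLC) (hM : S_M15K) (hW : S_W0) (hC : S_CPER) {K : Type} [Field K]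
    [NumberField K] {n : ℕ} (hK : QF K n) (hn : Cl n) :
    ∃ F : ℂ → ℂ, Differentiable ℂ F ∧ (∀ s : ℂ, 2 < s.re → F s = (base E K).LSeries s) ∧
      ∃ y : ℤ, (Odd y ↔ Qc n) ∧ F 1 * (((√(n : ℝ) : ℝ) : ℂ) * 64) =
        (y : ℂ) ^ 2 * 4 ^ (n.primeFactors.card - 1) * (((complexPeriod E : ℝ) : ℂ) * 16) := by
  obtain ⟨L, Op, Om, hOp, hOm, g2, g3, hL⟩ := Run7.h209.P15.m_lat
  obtain ⟨F, hF, hprod, y', hcc, hodd, hval⟩ := Run7.h555.P15.center_ex hOm g2 g3 hL (n := n) hn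
  obtain ⟨y, rfl⟩ : ∃ y : ℤ, y' = 3 * y := by
    have h3 : (3 : ℤ) ∣ 2 ^ n.primeFactors.card * y' := by
      rw [← hcc]
      exact Run7.h555.P15.three_dvd_cc (by have := hn.2; omega)
    rcases (Int.prime_three.dvd_mul).1 h3 with h4 | h4
    · exact absurd (Int.prime_three.dvd_of_dvd_pow h4) (by decide)
    · exact h4
  obtain ⟨G, hG, hGp, hG1⟩ := t_L1
  have hFp : ∀ z : ℂ, 3 / 2 < z.re →
      HasProd (fun p : Nat.Primes => eul (-(n : ℤ)) z p) (F z) := by
    intro s hs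
    have h1 := hprod s hs
    have h2 : (fun p : ℕ => if p.Prime then Run7.h555.P15.eul n s p else 1) =
        Set.mulIndicator {p : ℕ | p.Prime} (fun p => eul (-(n : ℤ)) s p) := by
      funext p
      by_cases hp : p.Prime
      · rw [if_pos hp, Set.mulIndicator_of_mem (show p ∈ {p : ℕ | p.Prime} from hp), eul_P15]
      · rw [if_neg hp, Set.mulIndicator_of_notMem (show p ∉ {p : ℕ | p.Prime} from hp)]
    rw [h2] at h1
    exact hasProd_subtype_iff_mulIndicator.2 h1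
  refine ⟨fun s => G s * F s, hG.mul hF, fun s hs => lseries hP hM hK hn hGp hFp hs, y, ?_, ?_⟩
  · rw [← hodd, Int.odd_mul]
    exact ⟨fun h => ⟨by decide, h⟩, fun h => h.2⟩
  · have hw : 1 ≤ n.primeFactors.card := by
      rw [Nat.one_le_iff_ne_zero, Ne, Finset.card_eq_zero, Nat.primeFactors_eq_empty]
      have := hn.2
      omega
    obtain ⟨k, hk⟩ : ∃ k, n.primeFactors.card = k + 1 := ⟨n.primeFactors.card - 1, by omega⟩
    show G 1 * F 1 * (((√(n : ℝ) : ℝ) : ℂ) * 64) = _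
    rw [hG1, hW L Op Om hOp hOm g2 g3 hL, hC L Op Om hOp hOm g2 g3 hL, hk, Nat.add_sub_cancel]
    rw [hk] at hval
    have e4 : (4 : ℂ) ^ k = ((2 : ℂ) ^ k) ^ 2 := by
      rw [← pow_mul, mul_comm, pow_mul]
      norm_num
    rw [e4]
    push_cast at hval ⊢
    rw [pow_succ] at hval
    linear_combination ((8 : ℂ) / 9 * (Op : ℂ)) * hval

end Run7.h555.XK
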